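import Pool.Agent.K4H30.LC.Fin
import Pool.Agent.K4H30.LC.Checks

/-!
# MP_03adb9_gt, Q1: a `C`-cycle which is not locally a superposition of pseudoholomorphic curves

The answer to Q1 is negative, in every leaf dimension `2 n ≥ 4` and in every codimension, even for a
product foliation with a constant (integrable) leafwise complex structure.  The manifold is
`M = L × V` with the leaves `L × {s}`, where `L = ℂ × ℂ × W`, the space `W` is any finite dimensional
complex space and `V` any finite dimensional real space; for `W = 0`, `V = 0` this is the complex
manifold `ℂ²` with one leaf.  The `C`-cycle is the closed positive current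
`c = dd^c max (0, Re z₁, Re z₂)` on `ℂ² × 0 × 0`, up to a constant factor: with the vectors
`w₁ = (-1, 0)`, `w₂ = (0, -1)`, `w₃ = (1, 1)`,
`c(α) = ∑_k ∫_{t > 0} ∫_{y ∈ ℝ²} α_{t w_k + i y}(w_k, i w_k) dy dt`,
a superposition of complex half planes, which is a cycle since `w₁ + w₂ + w₃ = 0`.  A
pseudoholomorphic curve in the support of `c` lies on a complex line on which one of the functions
`Re z₁`, `Re z₂`, `Re (z₁ - z₂)` is zero, and on one side of a real line in it; so it cannot be a
properly embedded curve near the origin.

The definitions (forms, currents, the structure cone, `C`-currents, cycles, pseudoholomorphic curves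
and superpositions) are in `Pool.Agent.K4H30.LC.Defs`.  In `Pool.Agent.K4H30.LC.Checks` it is proved
(`existsUnique_integral`) that the integral of a form over a curve is well defined.
-/

set_option autoImplicit false

namespace Pool.Agent.Results.MP_03adb9_gt.TropicalCycle

open Pool.Agent.K4H30.LC TopologicalSpace

/-- Let `M = (ℂ × ℂ × W) × V`, foliated by the leaves `(ℂ × ℂ × W) × {s}`, with the constant leafwise
complex structure.  The assertion of Q1 is false for `M`: there are a `C`-cycle on `M` and a point
such that on no neighbourhood `U` of the point is the cycle a non-negative superposition of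
pseudoholomorphic curves in `U`. -/
theorem result (W V : Type) [NormedAddCommGroup W] [NormedSpace ℂ W] [FiniteDimensional ℂ W]
    [NormedAddCommGroup V] [NormedSpace ℝ V] [FiniteDimensional ℝ V] :
    ¬ LocalRepresentation (ℂ × ℂ × W) V := by
  intro h
  obtain ⟨U, hU, hs⟩ := h (trop W V) (isCCycle_trop W V) 0
  exact not_super W V U hU hs

end Pool.Agent.Results.MP_03adb9_gt.TropicalCycle
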